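import Pool.Agent.L0h29.AL.ArtDefs5

/-! Project AL4, module ARE. -/

set_option autoImplicit false

universe u

namespace Pool.Agent.L0h48.AL

open Pool.Agent.L0h29.AL Pool.Agent.K7.H20.AW Pool.Agent.K7.H87.FJ6

section words

variable {B : Type*} {M : CoxeterMatrix B}

/-- the map from the free group -/
def fl (M : CoxeterMatrix B) : FreeGroup B →* Art M := FreeGroup.lift (g M)

theorem fl_mk (w : List (B × Bool)) : fl M (FreeGroup.mk w) = lval M w := by
  unfold fl lval
  rw [FreeGroup.lift_mk]
  congr 1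
  apply List.map_congr_left
  intro p _
  cases p.2 <;> rfl

theorem mk_app (u v : List (B × Bool)) :
    FreeGroup.mk (u ++ v) = FreeGroup.mk u * FreeGroup.mk v := (FreeGroup.mul_mk).symm

theorem mk_inw (u : List (B × Bool)) : FreeGroup.mk (inw u) = (FreeGroup.mk u)⁻¹ := by
  rw [FreeGroup.inv_mk]
  rfl

theorem fl_aw (m : ℕ) : ∀ i j : B, lval M (aw m i j) = altProd m (g M i) (g M j) := by
  induction m with
  | zero => intro i j; simp [aw, altProd, lval]
  | succ m ih =>
    intro i j
    have h : lval M (aw (m + 1) i j) = g M i * lval M (aw m j i) := by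
      rw [aw]
      unfold lval
      rw [List.map_cons, List.prod_cons]
      rfl
    rw [h, ih, altProd]

/-- the relator in the free group -/
def rf (m : ℕ) (i j : B) (b : Bool) : FreeGroup B := FreeGroup.mk (rw' m i j b)

theorem rf_not (m : ℕ) (i j : B) (b : Bool) : rf m i j (!b) = (rf m i j b)⁻¹ := by
  unfold rf rw'
  cases b
  · simp only [Bool.not_false, if_true, Bool.false_eq_true, if_false]
    rw [mk_app, mk_inw, mk_app, mk_inw, mul_inv_rev, inv_inv]
  · simp only [Bool.not_true, if_true, Bool.false_eq_true, if_false]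
    rw [mk_app, mk_inw, mk_app, mk_inw, mul_inv_rev, inv_inv]

theorem fl_rf (i j : B) (b : Bool) : fl M (rf (M i j) i j b) = 1 := by
  have h : altProd (M i j) (g M i) (g M j) = altProd (M i j) (g M j) (g M i) := by
    rw [altProd_eq, altProd_eq]
    exact Sh.rel i j
  unfold rf rw'
  cases b
  · simp only [Bool.false_eq_true, if_false]
    rw [mk_app, mk_inw, map_mul, map_inv, fl_mk, fl_mk, fl_aw, fl_aw, h, mul_inv_cancel]
  · simp only [if_true]
    rw [mk_app, mk_inw, map_mul, map_inv, fl_mk, fl_mk, fl_aw, fl_aw, h, mul_inv_cancel]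

theorem mk_exw_nil (lab : B → B → ℕ) : FreeGroup.mk (exw lab []) = 1 := by
  rw [show exw lab ([] : List (List (B × Bool) × B × B × Bool)) = [] from rfl]
  rfl

theorem mk_exw_cons (lab : B → B → ℕ) (p : List (B × Bool) × B × B × Bool)
    (d : List (List (B × Bool) × B × B × Bool)) :
    FreeGroup.mk (exw lab (p :: d)) = FreeGroup.mk p.1 *
      rf (lab p.2.1 p.2.2.1) p.2.1 p.2.2.1 p.2.2.2 * (FreeGroup.mk p.1)⁻¹ *
      FreeGroup.mk (exw lab d) := by
  have h : exw lab (p :: d) = p.1 ++ rw' (lab p.2.1 p.2.2.1) p.2.1 p.2.2.1 p.2.2.2 ++ inw p.1 ++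
      exw lab d := by
    simp [exw]
  rw [h, mk_app, mk_app, mk_app, mk_inw]
  rfl

theorem mk_exw_app (lab : B → B → ℕ) (c d : List (List (B × Bool) × B × B × Bool)) :
    FreeGroup.mk (exw lab (c ++ d)) = FreeGroup.mk (exw lab c) * FreeGroup.mk (exw lab d) := by
  induction c with
  | nil => rw [mk_exw_nil, one_mul, List.nil_append]
  | cons p c ih => rw [List.cons_append, mk_exw_cons, mk_exw_cons, ih, ← mul_assoc]

theorem fl_exw (c : List (List (B × Bool) × B × B × Bool)) :
    fl M (FreeGroup.mk (exw (fun i j => M i j) c)) = 1 := by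
  induction c with
  | nil => rw [mk_exw_nil, map_one]
  | cons p c ih =>
    rw [mk_exw_cons, map_mul, map_mul, map_mul, map_inv, ih, fl_rf, mul_one, mul_one,
      mul_inv_cancel]

theorem mk_exw_inv (lab : B → B → ℕ) (c : List (List (B × Bool) × B × B × Bool)) :
    FreeGroup.mk (exw lab ((c.map fun p => (p.1, p.2.1, p.2.2.1, !p.2.2.2)).reverse)) =
      (FreeGroup.mk (exw lab c))⁻¹ := by
  induction c with
  | nil => rw [List.map_nil, List.reverse_nil, mk_exw_nil, inv_one]
  | cons p c ih =>
    rw [List.map_cons, List.reverse_cons, mk_exw_app, ih, mk_exw_cons, mk_exw_cons, mk_exw_nil,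
      rf_not]
    group

theorem mk_exw_conj (lab : B → B → ℕ) (v : List (B × Bool))
    (c : List (List (B × Bool) × B × B × Bool)) :
    FreeGroup.mk (exw lab (c.map fun p => (v ++ p.1, p.2))) =
      FreeGroup.mk v * FreeGroup.mk (exw lab c) * (FreeGroup.mk v)⁻¹ := by
  induction c with
  | nil => rw [List.map_nil, mk_exw_nil]; group
  | cons p c ih =>
    rw [List.map_cons, mk_exw_cons, ih, mk_exw_cons, mk_app]
    group

end words

theorem t_ARE : S_ARE.{u} := by
  intro B _ _ M
  refine ⟨?_, ?_, ?_, ?_, ?_, ?_, ?_⟩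
  · rintro w N ⟨c, _, _, hc⟩
    rw [← fl_mk, hc, fl_exw]
  · rintro w N N' hN ⟨c, h1, h2, hc⟩
    exact ⟨c, h1.trans hN, fun p hp => (h2 p hp).trans hN, hc⟩
  · rintro w w' N hw ⟨c, h1, h2, hc⟩
    exact ⟨c, h1, h2, by rw [← hw, hc]⟩
  · rintro w w' N N' ⟨c, h1, h2, hc⟩ ⟨c', h1', h2', hc'⟩
    refine ⟨c ++ c', ?_, ?_, ?_⟩
    · rw [List.length_append]
      omega
    · intro p hp
      rcases List.mem_append.1 hp with hp | hp
      · exact (h2 p hp).trans (Nat.le_add_right _ _)
      · exact (h2' p hp).trans (Nat.le_add_left _ _)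
    · rw [mk_app, mk_exw_app, hc, hc']
  · rintro w N ⟨c, h1, h2, hc⟩
    refine ⟨(c.map fun p => (p.1, p.2.1, p.2.2.1, !p.2.2.2)).reverse, ?_, ?_, ?_⟩
    · rw [List.length_reverse, List.length_map]
      exact h1
    · intro p hp
      rw [List.mem_reverse, List.mem_map] at hp
      obtain ⟨q, hq, rfl⟩ := hp
      exact h2 q hq
    · rw [mk_inw, hc, mk_exw_inv]
  · rintro v w N ⟨c, h1, h2, hc⟩
    refine ⟨c.map fun p => (v ++ p.1, p.2), ?_, ?_, ?_⟩
    · rw [List.length_map]
      omega
    · intro p hp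
      rw [List.mem_map] at hp
      obtain ⟨q, hq, rfl⟩ := hp
      have := h2 q hq
      rw [List.length_append]
      omega
    · rw [mk_exw_conj, ← hc, mk_app, mk_app, mk_inw]
  · intro a b i j
    refine ⟨[(a.map fun x => (x, true), i, j, true)], ?_, ?_, ?_⟩
    · rw [List.length_singleton]
      omega
    · intro p hp
      rw [List.mem_singleton] at hp
      subst hp
      show (a.map fun x => (x, true)).length ≤ a.length + 1
      rw [List.length_map]
      omega
    · rw [mk_exw_cons, mk_exw_nil, mk_app, mk_inw, mk_app, mk_app, mk_app, mk_app]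
      unfold rf rw'
      simp only [if_true]
      rw [mk_app, mk_inw]
      group

end Pool.Agent.L0h48.AL
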