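import Pool.Agent.L0h29.AL.ArtDefs5

/-! Project AL4, module DEL. -/

set_option autoImplicit false

universe u_1

namespace Pool.Agent.L0h48.AL

open Pool.Agent.L0h29.AL Pool.Agent.Helper741 CoxeterSystem

section

variable {B : Type*} {M : CoxeterMatrix B}

theorem pm_append (l l' : List B) : pm M (l ++ l') = pm M l * pm M l' := by
  unfold pm
  rw [FreeMonoid.ofList_append, map_mul]

theorem pm_cons (b : B) (l : List B) : pm M (b :: l) = pm M [b] * pm M l := by
  rw [← pm_append]
  rfl

theorem pm_nil : pm M ([] : List B) = 1 := by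
  unfold pm
  rw [FreeMonoid.ofList_nil, map_one]

theorem pm_eq (l : List B) : (l.map (fun b => pm M [b])).prod = pm M l := by
  induction l with
  | nil => rw [List.map_nil, List.prod_nil, pm_nil]
  | cons b l ih => rw [List.map_cons, List.prod_cons, ih, ← pm_cons]

theorem awp_prod (i j : B) (k : ℕ) : pm M (awp k i j) = alt (pm M [i]) (pm M [j]) k := by
  induction k generalizing i j with
  | zero => rw [alt_zero]; exact pm_nil
  | succ k ih =>
    rw [alt_succ, ← ih]
    exact pm_cons _ _

theorem pm_rel (i j : B) : alt (pm M [i]) (pm M [j]) (M i j) = alt (pm M [j]) (pm M [i]) (M i j) := by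
  rw [← awp_prod, ← awp_prod]
  exact PresentedMonoid.mk_eq_mk_of_rel ⟨i, j, rfl, rfl⟩

end

theorem t_DEL (h1 : S_MAT.{u_1, u_1}) : S_DEL.{u_1} := by
  intro B _ _ M hfin
  set cs := M.toCoxeterSystem with hcs
  have hmat : ∀ ω ω' : List B, cs.IsReduced ω → cs.IsReduced ω' →
      cs.wordProd ω = cs.wordProd ω' → pm M ω = pm M ω' := by
    intro ω ω' h h' he
    rw [← pm_eq, ← pm_eq]
    exact h1 B M (AP M) (fun b => pm M [b]) (fun i j => pm_rel i j) ω ω' h h' he
  obtain ⟨w₀, hw⟩ := exists_longest cs
  have hsq := longest_sq hw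
  choose σ hσ using fun b => longest_conj hw b
  -- `u b` is a reduced word of `s_b w₀ = w₀ s_(σ b)`
  have hconj : ∀ b, cs.simple b * w₀ = w₀ * cs.simple (σ b) := by
    intro b
    rw [← hσ b, ← mul_assoc, ← mul_assoc, hsq, one_mul]
  have hlen : ∀ b, cs.length (cs.simple b * w₀) + 1 = cs.length w₀ := by
    intro b
    have h2 := longest_mul hw (cs.simple (σ b))
    rw [cs.length_simple, ← hconj] at h2
    exact h2
  have hd : cs.IsReduced (rword cs w₀) := rword_reduced cs w₀
  have hdl : (rword cs w₀).length = cs.length w₀ := rword_length cs w₀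
  have r1 : ∀ b, cs.IsReduced (b :: rword cs (cs.simple b * w₀)) ∧
      cs.wordProd (b :: rword cs (cs.simple b * w₀)) = w₀ := by
    intro b
    have h3 : cs.wordProd (b :: rword cs (cs.simple b * w₀)) = w₀ := by
      rw [cs.wordProd_cons, rword_prod, cs.simple_mul_simple_cancel_left]
    refine ⟨?_, h3⟩
    unfold CoxeterSystem.IsReduced
    rw [h3, List.length_cons, rword_length, hlen]
  have r2 : ∀ b, cs.IsReduced (rword cs (cs.simple b * w₀) ++ [σ b]) ∧
      cs.wordProd (rword cs (cs.simple b * w₀) ++ [σ b]) = w₀ := by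
    intro b
    have h3 : cs.wordProd (rword cs (cs.simple b * w₀) ++ [σ b]) = w₀ := by
      rw [cs.wordProd_append, rword_prod, hconj, cs.wordProd_singleton, mul_assoc,
        cs.simple_mul_simple_self, mul_one]
    refine ⟨?_, h3⟩
    unfold CoxeterSystem.IsReduced
    rw [h3, List.length_append, List.length_singleton, rword_length, hlen]
  refine ⟨rword cs w₀, σ, fun b => rword cs (cs.simple b * w₀), ?_, ?_, ?_⟩
  · intro b
    apply simple_injective cs
    rw [← hσ (σ b), ← hσ b]
    calc w₀ * (w₀ * cs.simple b * w₀) * w₀ = (w₀ * w₀) * cs.simple b * (w₀ * w₀) := by group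
      _ = cs.simple b := by rw [hsq]; group
  · intro b
    have e1 := hmat _ _ hd (r2 b).1 (by rw [rword_prod, (r2 b).2])
    have e2 := hmat _ _ hd (r1 b).1 (by rw [rword_prod, (r1 b).2])
    rw [pm_cons, pm_append, e1, pm_append, ← mul_assoc, ← pm_cons, ← e2, e1, pm_append]
  · intro b
    exact hmat _ _ hd (r1 b).1 (by rw [rword_prod, (r1 b).2])

end Pool.Agent.L0h48.AL
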